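import Pool.Agent.Q77.LU.StmH

/-!
# Project LU, job INVF: the inverse function theorem for maps to powers of a closed matrix group (helper297)
-/

set_option autoImplicit false

namespace Pool.Agent.Q297.LU

open MeasureTheory Matrix Set Filter Topology
open scoped ContDiff Matrix.Norms.Frobenius
open Pool.Agent.Q77.LU

noncomputable section

/-- small Euclidean balls are small neighbourhoods -/
lemma nx_small {P Q : Type} [Fintype P] [Fintype Q] {U : Set ((P → ℝ) × (Q → ℝ))}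
    (hU : U ∈ 𝓝 (0 : (P → ℝ) × (Q → ℝ))) : ∃ r : ℝ, 0 < r ∧ ∀ x, nx x < r ^ 2 → x ∈ U := by
  obtain ⟨δ, hδ, hball⟩ := Metric.mem_nhds_iff.1 hU
  refine ⟨δ, hδ, fun x hx => hball ?_⟩
  rw [mem_ball_zero_iff, Prod.norm_def, max_lt_iff]
  have h1 : ∀ (ι : Type) [Fintype ι] (y : ι → ℝ), n2 y < δ ^ 2 → ‖y‖ < δ := by
    intro ι _ y hy
    rw [pi_norm_lt_iff hδ]
    intro i
    rw [Real.norm_eq_abs]
    refine abs_lt_of_sq_lt_sq ?_ hδ.le
    refine lt_of_le_of_lt ?_ hy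
    exact Finset.single_le_sum (f := fun i => y i ^ 2) (fun i _ => sq_nonneg _) (Finset.mem_univ i)
  have h0 : ∀ (ι : Type) [Fintype ι] (y : ι → ℝ), 0 ≤ n2 y := fun ι _ y =>
    Finset.sum_nonneg fun i _ => sq_nonneg _
  unfold nx at hx
  constructor
  · exact h1 P x.1 (by linarith [h0 Q x.2])
  · exact h1 Q x.2 (by linarith [h0 P x.1])

lemma nx_cont {P Q : Type} [Fintype P] [Fintype Q] :
    Continuous (fun x : (P → ℝ) × (Q → ℝ) => nx x) := by
  unfold nx n2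
  fun_prop

lemma nx_zero {P Q : Type} [Fintype P] [Fintype Q] : nx (0 : (P → ℝ) × (Q → ℝ)) = 0 := by
  unfold nx n2
  simp

lemma mt_cont {N : ℕ} {G : Subgroup (UU N)} : Continuous (fun g : G => mt g) :=
  continuous_subtype_val.comp continuous_subtype_val

lemma mt_mul {N : ℕ} {G : Subgroup (UU N)} (g h : G) : mt (g * h) = mt g * mt h := rfl

lemma mt_inv {N : ℕ} {G : Subgroup (UU N)} (g : G) : mt g⁻¹ = (mt g)ᴴ := rfl

lemma mt_one {N : ℕ} {G : Subgroup (UU N)} : mt (1 : G) = 1 := rfl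

lemma mt_inj {N : ℕ} {G : Subgroup (UU N)} {g h : G} (e : mt g = mt h) : g = h :=
  Subtype.ext (Subtype.ext e)

lemma lin_cd {N n : ℕ} {G : Subgroup (UU N)} (B : LieBasis G n) : ContDiff ℝ ∞ (lin B) := by
  unfold lin
  exact ContDiff.sum fun a _ => (contDiff_apply ℝ ℝ a).smul contDiff_const

lemma exp_cd {N : ℕ} : ContDiff ℝ ∞ (fun A : Mt N => NormedSpace.exp A) := by
  rw [contDiff_iff_contDiffAt]
  intro A
  exact (NormedSpace.exp_analytic (𝕂 := ℝ) A).contDiffAt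

/-- **INVF** -/
theorem t_INVF (_ : S_EXPG) (h2 : S_LOGC) : S_INVF := by
  intro N n G hG B P Q m _ _ _ hcard Θ hΘ hinj
  obtain ⟨lg, ρ0, ε, hρ0, hε, hlg, hlg1, hlg2⟩ := h2 N n G hG B
  -- notation
  set Φ : (P → ℝ) × (Q → ℝ) → (m → Mt N) := fun x e => mt (Θ x e) with hΦ
  set A : m → Mt N := fun e => mt (Θ 0 e)⁻¹ with hA
  have hA1 : ∀ e, A e * mt (Θ 0 e) = 1 := by
    intro e
    rw [hA]
    simp only
    rw [← mt_mul, inv_mul_cancel, mt_one]
  have hA2 : ∀ e, mt (Θ 0 e) * A e = 1 := by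
    intro e
    rw [hA]
    simp only
    rw [← mt_mul, mul_inv_cancel, mt_one]
  set Λ : (m → Mt N) → (m → Fin n → ℝ) := fun M e => lg (A e * M e) with hΛ
  have hΛcd : ContDiff ℝ ∞ Λ := by
    rw [contDiff_pi]
    intro e
    refine hlg.comp ?_
    exact contDiff_const.mul (contDiff_apply ℝ (Mt N) e)
  set y : (P → ℝ) × (Q → ℝ) → (m → Fin n → ℝ) := fun x => Λ (Φ x) with hy
  have hycd : ContDiff ℝ ∞ y := hΛcd.comp hΘ
  set Ex : (m → Fin n → ℝ) → (m → Mt N) := fun w e => mt (Θ 0 e) * NormedSpace.exp (lin B (w e)) with hEx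
  have hExcd : ContDiff ℝ ∞ Ex := by
    rw [contDiff_pi]
    intro e
    refine contDiff_const.mul (exp_cd.comp ((lin_cd B).comp (contDiff_apply ℝ (Fin n → ℝ) e)))
  -- the good neighbourhood
  have hgood : {x : (P → ℝ) × (Q → ℝ) | ∀ e, ‖A e * Φ x e - 1‖ < ε} ∈ 𝓝 (0 : (P → ℝ) × (Q → ℝ)) := by
    have hc : ∀ e, Continuous fun x => ‖A e * Φ x e - 1‖ := by
      intro e
      have h3 : Continuous fun x => Φ x e := (continuous_apply e).comp hΘ.continuous
      exact ((continuous_const.mul h3).sub continuous_const).norm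
    have : IsOpen {x : (P → ℝ) × (Q → ℝ) | ∀ e, ‖A e * Φ x e - 1‖ < ε} := by
      rw [Set.ofPred_forall]
      exact isOpen_iInter_of_finite fun e => isOpen_lt (hc e) continuous_const
    refine this.mem_nhds ?_
    intro e
    have h3 : A e * Φ 0 e = 1 := hA1 e
    rw [h3, sub_self, norm_zero]
    exact hε
  have hlog : ∀ V : m → G, (∀ e, ‖A e * mt (V e) - 1‖ < ε) →
      ∀ e, A e * mt (V e) = NormedSpace.exp (lin B (lg (A e * mt (V e)))) := by
    intro V hV e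
    have h3 : A e * mt (V e) = mt ((Θ 0 e)⁻¹ * V e) := rfl
    have h4 := hV e
    rw [h3] at h4 ⊢
    exact (hlg2 _ h4).2
  have hΦE : ∀ x, (∀ e, ‖A e * Φ x e - 1‖ < ε) → Φ x = Ex (y x) := by
    intro x hx
    funext e
    have h3 := hlog (Θ x) hx e
    show mt (Θ x e) = mt (Θ 0 e) * NormedSpace.exp (lin B (lg (A e * mt (Θ x e))))
    rw [← h3, ← mul_assoc, hA2, one_mul]
  -- the derivative of y at 0
  have hyd : HasFDerivAt y (fderiv ℝ y 0) 0 :=
    (hycd.differentiable (by simp)).differentiableAt.hasFDerivAt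
  have hinj2 : Function.Injective (fderiv ℝ y 0) := by
    rw [injective_iff_map_eq_zero]
    intro v hv
    apply hinj
    have h3 : Φ =ᶠ[𝓝 0] Ex ∘ y := by
      filter_upwards [hgood] with x hx
      exact hΦE x hx
    have h5 : HasFDerivAt (Ex ∘ y) ((fderiv ℝ Ex (y 0)).comp (fderiv ℝ y 0)) 0 :=
      ((hExcd.differentiable (by simp)).differentiableAt.hasFDerivAt).comp 0 hyd
    have h6 : HasFDerivAt Φ ((fderiv ℝ Ex (y 0)).comp (fderiv ℝ y 0)) 0 := h5.congr_of_eventuallyEq h3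
    have h7 : fderiv ℝ Φ 0 = (fderiv ℝ Ex (y 0)).comp (fderiv ℝ y 0) := h6.fderiv
    rw [h7, ContinuousLinearMap.comp_apply, hv, map_zero]
  have hfin : Module.finrank ℝ ((P → ℝ) × (Q → ℝ)) = Module.finrank ℝ (m → Fin n → ℝ) := by
    rw [Module.finrank_prod, Module.finrank_fintype_fun_eq_card, Module.finrank_fintype_fun_eq_card,
      hcard, Module.finrank_pi_fintype]
    simp [mul_comm]
  set f' : ((P → ℝ) × (Q → ℝ)) ≃L[ℝ] (m → Fin n → ℝ) :=
    (LinearMap.linearEquivOfInjective (fderiv ℝ y 0 : ((P → ℝ) × (Q → ℝ)) →ₗ[ℝ] (m → Fin n → ℝ))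
      hinj2 hfin).toContinuousLinearEquiv with hf'
  have hf'c : (f' : ((P → ℝ) × (Q → ℝ)) →L[ℝ] (m → Fin n → ℝ)) = fderiv ℝ y 0 := by
    exact ContinuousLinearMap.ext fun v => rfl
  have hyd' : HasFDerivAt y (f' : ((P → ℝ) × (Q → ℝ)) →L[ℝ] (m → Fin n → ℝ)) 0 := by
    rw [hf'c]; exact hyd
  set φ := hycd.contDiffAt.toOpenPartialHomeomorph y hyd' (by simp) with hφ
  have hφc : ∀ x, φ x = y x := fun x => rfl
  have h0s : (0 : (P → ℝ) × (Q → ℝ)) ∈ φ.source :=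
    hycd.contDiffAt.mem_toOpenPartialHomeomorph_source hyd' (by simp)
  -- points where the derivative is invertible
  have hinv : {x : (P → ℝ) × (Q → ℝ) | fderiv ℝ y x ∈
      Set.range ((↑) : (((P → ℝ) × (Q → ℝ)) ≃L[ℝ] (m → Fin n → ℝ)) → _)} ∈ 𝓝 (0 : (P → ℝ) × (Q → ℝ)) := by
    have h3 : Continuous (fderiv ℝ y) := hycd.continuous_fderiv (by simp)
    exact (ContinuousLinearEquiv.isOpen.preimage h3).mem_nhds ⟨f', hf'c⟩
  obtain ⟨r1, hr1, hr1b⟩ := nx_small (Filter.inter_mem (Filter.inter_mem hgood hinv)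
    (φ.open_source.mem_nhds h0s))
  have hgood1 : ∀ x, nx x < r1 ^ 2 → ∀ e, ‖A e * Φ x e - 1‖ < ε := fun x hx => (hr1b x hx).1.1
  have hinv1 : ∀ x, nx x < r1 ^ 2 → fderiv ℝ y x ∈
      Set.range ((↑) : (((P → ℝ) × (Q → ℝ)) ≃L[ℝ] (m → Fin n → ℝ)) → _) := fun x hx => (hr1b x hx).1.2
  have hsrc : ∀ x, nx x < r1 ^ 2 → x ∈ φ.source := fun x hx => (hr1b x hx).2
  have hopen : ∀ ρ : ℝ, 0 < ρ → ρ ≤ r1 → IsOpen (y '' {x | nx x < ρ ^ 2}) := by
    intro ρ hρ hρ1
    have h3 : {x : (P → ℝ) × (Q → ℝ) | nx x < ρ ^ 2} ⊆ φ.source := by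
      intro x hx
      apply hsrc
      have : ρ ^ 2 ≤ r1 ^ 2 := pow_le_pow_left₀ hρ.le hρ1 2
      exact lt_of_lt_of_le hx this
    exact φ.isOpen_image_of_subset_source (isOpen_lt nx_cont continuous_const) h3
  have h0ball : ∀ ρ : ℝ, 0 < ρ → (0 : (P → ℝ) × (Q → ℝ)) ∈ {x : (P → ℝ) × (Q → ℝ) | nx x < ρ ^ 2} := by
    intro ρ hρ
    show nx (0 : (P → ℝ) × (Q → ℝ)) < ρ ^ 2
    rw [nx_zero]; positivity
  -- the cut off
  have hSn : y '' {x | nx x < r1 ^ 2} ∈ 𝓝 (y 0) :=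
    (hopen r1 hr1 le_rfl).mem_nhds ⟨0, h0ball r1 hr1, rfl⟩
  obtain ⟨δ, hδ, hδb⟩ := Metric.mem_nhds_iff.1 hSn
  set χ : ContDiffBump (y 0) := ⟨δ / 3, δ / 2, by linarith, by linarith⟩ with hχ
  have hsymm : ∀ w ∈ y '' {x | nx x < r1 ^ 2}, ContDiffAt ℝ ∞ φ.symm w := by
    rintro w ⟨x, hx, rfl⟩
    obtain ⟨g', hg'⟩ := hinv1 x hx
    have hsx : φ.symm (y x) = x := φ.left_inv (hsrc x hx)
    refine φ.contDiffAt_symm (f₀' := g') ?_ ?_ ?_
    · exact φ.map_source (hsrc x hx)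
    · rw [hsx]
      have h3 : HasFDerivAt y (fderiv ℝ y x) x :=
        (hycd.differentiable (by simp)).differentiableAt.hasFDerivAt
      rw [← hg'] at h3
      exact h3
    · rw [hsx]
      exact hycd.contDiffAt
  set Γ : (m → Fin n → ℝ) → (P → ℝ) × (Q → ℝ) := fun w => χ w • φ.symm w with hΓ
  have hΓcd : ContDiff ℝ ∞ Γ := by
    rw [contDiff_iff_contDiffAt]
    intro w
    by_cases hw : w ∈ y '' {x | nx x < r1 ^ 2}
    · exact (χ.contDiff.contDiffAt).smul (hsymm w hw)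
    · have h3 : w ∉ Metric.closedBall (y 0) (δ / 2) := by
        intro h
        exact hw (hδb (Metric.closedBall_subset_ball (by linarith) h))
      have h4 : (fun _ : m → Fin n → ℝ => (0 : (P → ℝ) × (Q → ℝ))) =ᶠ[𝓝 w] Γ := by
        filter_upwards [Metric.isClosed_closedBall.isOpen_compl.mem_nhds h3] with v hv
        have h5 : χ v = 0 := by
          apply χ.zero_of_le_dist
          have : ¬ dist v (y 0) ≤ δ / 2 := hv
          show δ / 2 ≤ dist v (y 0)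
          linarith
        rw [hΓ]
        simp only [h5, zero_smul]
      exact contDiffAt_const.congr_of_eventuallyEq h4.symm
  -- the radius
  have hbn : {x : (P → ℝ) × (Q → ℝ) | y x ∈ Metric.ball (y 0) (δ / 3)} ∈ 𝓝 (0 : (P → ℝ) × (Q → ℝ)) :=
    (Metric.isOpen_ball.preimage hycd.continuous).mem_nhds (Metric.mem_ball_self (by linarith))
  obtain ⟨r2, hr2, hr2b⟩ := nx_small hbn
  set r : ℝ := min r1 r2 with hr
  have hr0 : 0 < r := lt_min hr1 hr2
  have hrr1 : r ≤ r1 := min_le_left _ _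
  have hrr2 : r ≤ r2 := min_le_right _ _
  refine ⟨r, hr0, fun M => Γ (Λ M), hΓcd.comp hΛcd, ?_, ?_⟩
  · intro x hx
    have hx1 : nx x < r1 ^ 2 := lt_of_lt_of_le hx (pow_le_pow_left₀ hr0.le hrr1 2)
    have hx2 : nx x < r2 ^ 2 := lt_of_lt_of_le hx (pow_le_pow_left₀ hr0.le hrr2 2)
    have h3 : y x ∈ Metric.ball (y 0) (δ / 3) := hr2b x hx2
    have h4 : χ (y x) = 1 := χ.one_of_mem_closedBall (Metric.ball_subset_closedBall h3)
    show χ (y x) • φ.symm (y x) = x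
    rw [h4, one_smul]
    exact φ.left_inv (hsrc x hx1)
  · intro ρ hρ hρr
    have hρr1 : ρ ≤ r1 := hρr.trans hrr1
    rw [isOpen_iff_mem_nhds]
    rintro V0 ⟨x0, hx0, rfl⟩
    have hx01 : nx x0 < r1 ^ 2 := lt_of_lt_of_le hx0 (pow_le_pow_left₀ hρ.le hρr1 2)
    have hκ : Continuous fun V : m → G => Λ (fun e => mt (V e)) := by
      refine hΛcd.continuous.comp ?_
      exact continuous_pi fun e => mt_cont.comp (continuous_apply e)
    have hmem1 : {V : m → G | Λ (fun e => mt (V e)) ∈ y '' {x | nx x < ρ ^ 2}} ∈ 𝓝 (Θ x0) :=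
      ((hopen ρ hρ hρr1).preimage hκ).mem_nhds ⟨x0, hx0, rfl⟩
    have hmem2 : {V : m → G | ∀ e, ‖A e * mt (V e) - 1‖ < ε} ∈ 𝓝 (Θ x0) := by
      have hc : ∀ e, Continuous fun V : m → G => ‖A e * mt (V e) - 1‖ := fun e =>
        ((continuous_const.mul (mt_cont.comp (continuous_apply e))).sub continuous_const).norm
      have : IsOpen {V : m → G | ∀ e, ‖A e * mt (V e) - 1‖ < ε} := by
        rw [Set.ofPred_forall]
        exact isOpen_iInter_of_finite fun e => isOpen_lt (hc e) continuous_const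
      exact this.mem_nhds (hgood1 x0 hx01)
    filter_upwards [hmem1, hmem2] with V hV1 hV2
    obtain ⟨x, hx, hxy⟩ := hV1
    refine ⟨x, hx, ?_⟩
    have hx1 : nx x < r1 ^ 2 := lt_of_lt_of_le hx (pow_le_pow_left₀ hρ.le hρr1 2)
    funext e
    apply mt_inj
    have h3 := hlog V hV2 e
    have h4 := hlog (Θ x) (hgood1 x hx1) e
    have h5 : lg (A e * mt (Θ x e)) = lg (A e * mt (V e)) := congrFun hxy e
    rw [h5, ← h3] at h4
    calc mt (Θ x e) = mt (Θ 0 e) * (A e * mt (Θ x e)) := by rw [← mul_assoc, hA2, one_mul]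
      _ = mt (Θ 0 e) * (A e * mt (V e)) := by rw [h4]
      _ = mt (V e) := by rw [← mul_assoc, hA2, one_mul]

end

end Pool.Agent.Q297.LU
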